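import Pool.Agent.Few65.Pack

set_option autoImplicit false

namespace Pool.Agent.Few65

open Finset

variable {m : ℕ}

/-- the sup norm as a natural number -/
def nrm (x : Fin m → ℤ) : ℕ := Finset.univ.sup fun i => (x i).natAbs

theorem mem_box_iff_nrm {N : ℕ} {x : Fin m → ℤ} : x ∈ box m N ↔ nrm x ≤ N := by
  rw [mem_box, nrm, Finset.sup_le_iff]
  constructor
  · intro h i _
    have := h i
    rw [Int.abs_eq_natAbs] at this
    omega
  · intro h i
    have := h i (Finset.mem_univ _)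
    rw [Int.abs_eq_natAbs]
    omega

theorem nrm_pos {x : Fin m → ℤ} (hx : x ≠ 0) : 1 ≤ nrm x := by
  by_contra h
  have h0 : nrm x ≤ 0 := by omega
  rw [nrm, Finset.sup_le_iff] at h0
  apply hx
  funext i
  have := h0 i (Finset.mem_univ _)
  simpa using this

theorem exists_coord {x : Fin m → ℤ} (hx : x ≠ 0) : ∃ i, (nrm x : ℤ) ≤ |x i| := by
  by_contra h
  push Not at h
  have hp := nrm_pos hx
  have h2 : nrm x ≤ nrm x - 1 := by
    conv_lhs => rw [nrm]
    rw [Finset.sup_le_iff]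
    intro i _
    have := h i
    rw [Int.abs_eq_natAbs] at this
    omega
  omega

/-- minimal norm of nonzero integer vectors in a rational subspace -/
noncomputable def mu (V : Submodule ℚ (Fin m → ℚ)) : ℕ :=
  sInf {k | ∃ x : Fin m → ℤ, x ≠ 0 ∧ toQ x ∈ V ∧ nrm x = k}

theorem mu_le {V : Submodule ℚ (Fin m → ℚ)} {x : Fin m → ℤ} (hx : x ≠ 0) (hV : toQ x ∈ V) :
    mu V ≤ nrm x :=
  Nat.sInf_le ⟨x, hx, hV, rfl⟩

theorem mu_spec {V : Submodule ℚ (Fin m → ℚ)} {x : Fin m → ℤ} (hx : x ≠ 0) (hV : toQ x ∈ V) :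
    ∃ z : Fin m → ℤ, z ≠ 0 ∧ toQ z ∈ V ∧ nrm z = mu V :=
  Nat.sInf_mem (s := {k | ∃ x : Fin m → ℤ, x ≠ 0 ∧ toQ x ∈ V ∧ nrm x = k}) ⟨_, x, hx, hV, rfl⟩

theorem card_shell (M : ℕ) (hM : 1 ≤ M) (Z : Finset (Fin m → ℤ)) (hZ : ∀ z ∈ Z, nrm z = M) :
    (Z.card : ℝ) ≤ 2 * m * (3 * M) ^ (m - 1) := by
  classical
  have hsub : Z ⊆ box m M \ box m (M - 1) := by
    intro z hz
    rw [Finset.mem_sdiff, mem_box_iff_nrm, mem_box_iff_nrm, hZ z hz]
    omega
  have hb : box m (M - 1) ⊆ box m M := by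
    intro z hz
    rw [mem_box_iff_nrm] at hz ⊢
    omega
  have h1 := Finset.card_le_card hsub
  rw [Finset.card_sdiff_of_subset hb, card_box, card_box] at h1
  have h2 : (2 * (M - 1) + 1) ^ m ≤ (2 * M + 1) ^ m := Nat.pow_le_pow_left (by omega) m
  have h3 : (Z.card : ℝ) ≤ (2 * (M : ℝ) + 1) ^ m - (2 * (M : ℝ) - 1) ^ m := by
    have h4 : (Z.card : ℝ) ≤ (((2 * M + 1) ^ m - (2 * (M - 1) + 1) ^ m : ℕ) : ℝ) := by
      exact_mod_cast h1
    rw [Nat.cast_sub h2] at h4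
    push_cast [Nat.cast_sub hM] at h4
    have h5 : 2 * ((M : ℝ) - 1) + 1 = 2 * (M : ℝ) - 1 := by ring
    rw [h5] at h4
    exact h4
  have hM1 : (1 : ℝ) ≤ M := by exact_mod_cast hM
  have h6 := abs_pow_sub_pow_le (2 * (M : ℝ) + 1) (2 * (M : ℝ) - 1) m
  have h7 : |2 * (M : ℝ) + 1 - (2 * (M : ℝ) - 1)| = 2 := by
    rw [show 2 * (M : ℝ) + 1 - (2 * (M : ℝ) - 1) = 2 by ring]; norm_num
  have h8 : max |2 * (M : ℝ) + 1| |2 * (M : ℝ) - 1| ≤ 3 * M := by
    apply max_le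
    · rw [abs_of_nonneg (by linarith)]; linarith
    · rw [abs_of_nonneg (by linarith)]; linarith
  calc (Z.card : ℝ) ≤ (2 * (M : ℝ) + 1) ^ m - (2 * (M : ℝ) - 1) ^ m := h3
    _ ≤ |(2 * (M : ℝ) + 1) ^ m - (2 * (M : ℝ) - 1) ^ m| := le_abs_self _
    _ ≤ |2 * (M : ℝ) + 1 - (2 * (M : ℝ) - 1)| * m * max |2 * (M : ℝ) + 1| |2 * (M : ℝ) - 1| ^ (m - 1) := h6
    _ ≤ 2 * m * (3 * M) ^ (m - 1) := by
        rw [h7]
        have := pow_le_pow_left₀ (le_max_of_le_left (abs_nonneg _)) h8 (m - 1)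
        exact mul_le_mul_of_nonneg_left this (by positivity)

theorem sum_shells (K : ℝ) (hK : 1 ≤ K) (R : ℕ) (hR : 1 ≤ R) (Z : Finset (Fin m → ℤ))
    (hZ : ∀ z ∈ Z, z ≠ 0 ∧ nrm z ≤ R) :
    ∑ z ∈ Z, (K * (R / (nrm z : ℝ))) ^ (m - 1) ≤ 2 * m * (3 * K * R) ^ (m - 1) * R := by
  classical
  have hmaps : ∀ z ∈ Z, nrm z ∈ Finset.Icc 1 R := by
    intro z hz
    rw [Finset.mem_Icc]
    exact ⟨nrm_pos (hZ z hz).1, (hZ z hz).2⟩
  rw [← Finset.sum_fiberwise_of_maps_to hmaps]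
  have hterm : ∀ M ∈ Finset.Icc 1 R,
      ∑ z ∈ Z with nrm z = M, (K * (R / (nrm z : ℝ))) ^ (m - 1) ≤ 2 * m * (3 * K * R) ^ (m - 1) := by
    intro M hM
    rw [Finset.mem_Icc] at hM
    have h1 : ∑ z ∈ Z with nrm z = M, (K * (R / (nrm z : ℝ))) ^ (m - 1)
        = ((Z.filter (fun z => nrm z = M)).card : ℝ) * (K * (R / (M : ℝ))) ^ (m - 1) := by
      rw [← nsmul_eq_mul, ← Finset.sum_const]
      apply Finset.sum_congr rfl
      intro z hz
      rw [(Finset.mem_filter.mp hz).2]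
    rw [h1]
    have h2 := card_shell M hM.1 (Z.filter (fun z => nrm z = M))
      (fun z hz => (Finset.mem_filter.mp hz).2)
    have hM0 : (0 : ℝ) < M := by exact_mod_cast hM.1
    calc ((Z.filter (fun z => nrm z = M)).card : ℝ) * (K * (R / (M : ℝ))) ^ (m - 1)
        ≤ (2 * m * (3 * M) ^ (m - 1)) * (K * (R / (M : ℝ))) ^ (m - 1) :=
          mul_le_mul_of_nonneg_right h2 (by positivity)
      _ = 2 * m * ((3 * M) * (K * (R / (M : ℝ)))) ^ (m - 1) := by rw [mul_pow]; ring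
      _ = 2 * m * (3 * K * R) ^ (m - 1) := by
          congr 2
          field_simp
  calc ∑ M ∈ Finset.Icc 1 R, ∑ z ∈ Z with nrm z = M, (K * (R / (nrm z : ℝ))) ^ (m - 1)
      ≤ ∑ M ∈ Finset.Icc 1 R, 2 * (m : ℝ) * (3 * K * R) ^ (m - 1) := Finset.sum_le_sum hterm
    _ = 2 * m * (3 * K * R) ^ (m - 1) * R := by
        rw [Finset.sum_const, Nat.card_Icc, nsmul_eq_mul]
        simp only [Nat.add_sub_cancel]
        ring

open Classical in
theorem count_perp (par perp : (Fin m → ℤ) → Submodule ℚ (Fin m → ℚ))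
    (h0 : ∀ u, u ≠ 0 → toQ u ∈ par u)
    (h1 : ∀ u z, u ≠ 0 → z ≠ 0 → toQ z ∈ par u → par z = par u ∧ perp z = perp u)
    (h2 : ∀ u w, u ≠ 0 → w ≠ 0 → toQ w ∈ perp u → perp u = par w ∧ perp w = par u)
    (hA : ∀ z, z ≠ 0 → 2 * Module.finrank ℚ (par z) < m) (R : ℕ) (hR : 1 ≤ R) :
    (((box m R ×ˢ box m R).filter
      (fun p => p.1 ≠ 0 ∧ p.2 ≠ 0 ∧ toQ p.2 ∈ perp p.1)).card : ℝ) ≤
      2 * (2 * m * (3 * (4 * 3 ^ m) * R) ^ (m - 1) * R) := by
  set T := (box m R ×ˢ box m R).filter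
      (fun p => p.1 ≠ 0 ∧ p.2 ≠ 0 ∧ toQ p.2 ∈ perp p.1) with hT
  set T' := T.filter (fun p => mu (par p.1) ≤ mu (par p.2)) with hT'
  have hK1 : (1 : ℝ) ≤ 4 * 3 ^ m := by
    have h12 : (1 : ℝ) ≤ 3 ^ m := one_le_pow₀ (by norm_num)
    linarith
  -- symmetry
  have hsym : T ⊆ T' ∪ T'.image Prod.swap := by
    intro p hp
    rw [Finset.mem_union]
    rcases le_total (mu (par p.1)) (mu (par p.2)) with h | h
    · left
      exact Finset.mem_filter.mpr ⟨hp, h⟩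
    · right
      rw [Finset.mem_image]
      refine ⟨p.swap, ?_, Prod.swap_swap p⟩
      rw [hT] at hp
      rw [Finset.mem_filter, Finset.mem_product] at hp
      obtain ⟨⟨hp1, hp2⟩, hn1, hn2, hpp⟩ := hp
      refine Finset.mem_filter.mpr ⟨?_, h⟩
      rw [hT, Finset.mem_filter, Finset.mem_product]
      refine ⟨⟨hp2, hp1⟩, hn2, hn1, ?_⟩
      have := (h2 _ _ hn1 hn2 hpp).2
      change toQ p.1 ∈ perp p.2
      rw [this]
      exact h0 _ hn1
  have hTT : (T.card : ℝ) ≤ 2 * T'.card := by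
    have h3 := Finset.card_le_card hsym
    have h4 := Finset.card_union_le T' (T'.image Prod.swap)
    have h5 : (T'.image Prod.swap).card ≤ T'.card := Finset.card_image_le
    have h6 : T.card ≤ 2 * T'.card := by omega
    exact_mod_cast h6
  refine hTT.trans ?_
  apply mul_le_mul_of_nonneg_left _ (by norm_num)
  -- the choice of a minimal vector
  let zs : (Fin m → ℤ) → (Fin m → ℤ) := fun u =>
    if h : u ≠ 0 then Classical.choose (mu_spec h (h0 u h)) else 0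
  have hzs : ∀ u, u ≠ 0 → zs u ≠ 0 ∧ toQ (zs u) ∈ par u ∧ nrm (zs u) = mu (par u) := by
    intro u hu
    simp only [zs, dif_pos hu]
    exact Classical.choose_spec (mu_spec hu (h0 u hu))
  set Z := (box m R).filter (fun z => z ≠ 0) with hZdef
  have hmaps : ∀ p ∈ T', zs p.1 ∈ Z := by
    intro p hp
    rw [hT', Finset.mem_filter, hT, Finset.mem_filter, Finset.mem_product] at hp
    obtain ⟨⟨⟨hp1, hp2⟩, hn1, hn2, hpp⟩, hmu⟩ := hp
    obtain ⟨hz1, hz2, hz3⟩ := hzs _ hn1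
    rw [hZdef, Finset.mem_filter, mem_box_iff_nrm]
    refine ⟨?_, hz1⟩
    rw [hz3]
    exact (mu_le hn1 (h0 _ hn1)).trans (mem_box_iff_nrm.mp hp1)
  have hcard := Finset.card_eq_sum_card_fiberwise hmaps
  rw [hcard]
  push_cast
  refine le_trans (Finset.sum_le_sum (g := fun z => (4 * 3 ^ m * (R / (nrm z : ℝ))) ^ (m - 1)) ?_)
    (sum_shells _ hK1 R hR Z ?_)
  · intro z hz
    rw [hZdef, Finset.mem_filter, mem_box_iff_nrm] at hz
    obtain ⟨hzR, hz0⟩ := hz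
    have hz1 := nrm_pos hz0
    have hzpos : (0 : ℝ) < nrm z := by exact_mod_cast hz1
    rcases (T'.filter (fun p => zs p.1 = z)).eq_empty_or_nonempty with he | ⟨q, hq⟩
    · rw [he]
      simp only [Finset.card_empty, Nat.cast_zero]
      positivity
    · rw [Finset.mem_filter, hT', Finset.mem_filter, hT, Finset.mem_filter,
        Finset.mem_product] at hq
      obtain ⟨⟨⟨⟨hq1, hq2⟩, hqn1, hqn2, hqp⟩, hqmu⟩, hqz⟩ := hq
      obtain ⟨hs1, hs2, hs3⟩ := hzs _ hqn1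
      rw [hqz] at hs1 hs2 hs3
      obtain ⟨e1, e2⟩ := h1 _ _ hqn1 hz0 hs2
      obtain ⟨e3, e4⟩ := h2 _ _ hqn1 hqn2 hqp
      have hsub : T'.filter (fun p => zs p.1 = z) ⊆
          ((box m R).filter (fun x => toQ x ∈ par z)) ×ˢ
            ((box m R).filter (fun x => toQ x ∈ perp z)) := by
        intro p hp
        rw [Finset.mem_filter, hT', Finset.mem_filter, hT, Finset.mem_filter,
          Finset.mem_product] at hp
        obtain ⟨⟨⟨⟨hp1, hp2⟩, hpn1, hpn2, hpp⟩, hpmu⟩, hpz⟩ := hp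
        obtain ⟨hr1, hr2, hr3⟩ := hzs _ hpn1
        rw [hpz] at hr1 hr2 hr3
        obtain ⟨e5, e6⟩ := h1 _ _ hpn1 hz0 hr2
        rw [Finset.mem_product, Finset.mem_filter, Finset.mem_filter]
        refine ⟨⟨hp1, ?_⟩, ⟨hp2, ?_⟩⟩
        · rw [e5]; exact h0 _ hpn1
        · rw [e6]; exact hpp
      have hc := Finset.card_le_card hsub
      rw [Finset.card_product] at hc
      have hp1 := pack (par z) (nrm z) R hz1 hzR (by
        intro x hxV hx0
        obtain ⟨i, hi⟩ := exists_coord hx0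
        refine ⟨i, le_trans ?_ hi⟩
        rw [e1] at hxV
        have := mu_le hx0 hxV
        rw [← hs3] at this
        exact_mod_cast this)
      have hp2 := pack (perp z) (nrm z) R hz1 hzR (by
        intro x hxV hx0
        obtain ⟨i, hi⟩ := exists_coord hx0
        refine ⟨i, le_trans ?_ hi⟩
        rw [e2, e3] at hxV
        have := mu_le hx0 hxV
        have h7 : nrm z ≤ nrm x := by rw [hs3]; exact hqmu.trans this
        exact_mod_cast h7)
      have hbase : (1 : ℝ) ≤ 4 * 3 ^ m * (R / (nrm z : ℝ)) := by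
        have : (1 : ℝ) ≤ R / (nrm z : ℝ) := by
          rw [le_div_iff₀ hzpos, one_mul]; exact_mod_cast hzR
        nlinarith
      have hr1 := hA z hz0
      have hr2 : 2 * Module.finrank ℚ (perp z) < m := by
        rw [e2, e3]; exact hA _ hqn2
      calc ((T'.filter (fun p => zs p.1 = z)).card : ℝ)
          ≤ (((box m R).filter (fun x => toQ x ∈ par z)).card : ℝ) *
            (((box m R).filter (fun x => toQ x ∈ perp z)).card : ℝ) := by exact_mod_cast hc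
        _ ≤ (4 * 3 ^ m * (R / (nrm z : ℝ))) ^ (Module.finrank ℚ (par z)) *
            (4 * 3 ^ m * (R / (nrm z : ℝ))) ^ (Module.finrank ℚ (perp z)) :=
            mul_le_mul hp1 hp2 (by positivity) (by positivity)
        _ = (4 * 3 ^ m * (R / (nrm z : ℝ))) ^
            (Module.finrank ℚ (par z) + Module.finrank ℚ (perp z)) := by rw [pow_add]
        _ ≤ (4 * 3 ^ m * (R / (nrm z : ℝ))) ^ (m - 1) :=
            pow_le_pow_right₀ hbase (by omega)
  · intro z hz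
    rw [hZdef, Finset.mem_filter, mem_box_iff_nrm] at hz
    exact ⟨hz.2, hz.1⟩

end Pool.Agent.Few65
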