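import Pool.Agent.Few65.Count

set_option autoImplicit false

namespace Pool.Agent.Few65

open Finset

variable {m : ℕ}

/-- the rational kernel of a real linear form -/
def kerOf (c : Fin m → ℝ) : Submodule ℚ (Fin m → ℚ) where
  carrier := {x | ∑ i, (x i : ℝ) * c i = 0}
  add_mem' := by
    intro a b ha hb
    simp only [Set.mem_ofPred_eq, Pi.add_apply] at *
    push_cast
    simp only [add_mul, Finset.sum_add_distrib]
    rw [ha, hb, add_zero]
  zero_mem' := by simp
  smul_mem' := by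
    intro r a ha
    simp only [Set.mem_ofPred_eq, Pi.smul_apply, smul_eq_mul] at *
    push_cast
    simp only [mul_assoc]
    rw [← Finset.mul_sum, ha, mul_zero]

theorem mem_kerOf {c : Fin m → ℝ} {x : Fin m → ℚ} : x ∈ kerOf c ↔ ∑ i, (x i : ℝ) * c i = 0 :=
  Iff.rfl

theorem kerOf_eq {c d : Fin m → ℝ} {l : ℝ} (hl : l ≠ 0) (h : ∀ i, d i = l * c i) :
    kerOf d = kerOf c := by
  ext x
  rw [mem_kerOf, mem_kerOf]
  have : ∑ i, (x i : ℝ) * d i = l * ∑ i, (x i : ℝ) * c i := by
    rw [Finset.mul_sum]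
    apply Finset.sum_congr rfl
    intro i _
    rw [h i]; ring
  rw [this]
  simp [hl]

/-- the plane -/
abbrev Pl := EuclideanSpace ℝ (Fin 2)

/-- integer combination -/
noncomputable def phi (v : Fin m → Pl) (x : Fin m → ℤ) : Pl := ∑ i, x i • v i

/-- cross product -/
def cr (a b : Pl) : ℝ := a 0 * b 1 - a 1 * b 0

/-- dot product -/
def dt (a b : Pl) : ℝ := a 0 * b 0 + a 1 * b 1

theorem phi_apply (v : Fin m → Pl) (x : Fin m → ℤ) (j : Fin 2) :
    phi v x j = ∑ i, (x i : ℝ) * v i j := by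
  unfold phi
  have h : ∀ s : Finset (Fin m), (∑ i ∈ s, x i • v i) j = ∑ i ∈ s, (x i : ℝ) * v i j := by
    classical
    intro s
    induction s using Finset.induction_on with
    | empty => simp
    | insert a s ha ih =>
      rw [Finset.sum_insert ha, Finset.sum_insert ha, PiLp.add_apply, ih, PiLp.smul_apply]
      simp
  exact h _

theorem phi_sub (v : Fin m → Pl) (x y : Fin m → ℤ) : phi v (x - y) = phi v x - phi v y := by
  unfold phi
  rw [← Finset.sum_sub_distrib]
  apply Finset.sum_congr rfl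
  intro i _
  rw [Pi.sub_apply, sub_smul]

theorem phi_add (v : Fin m → Pl) (x y : Fin m → ℤ) : phi v (x + y) = phi v x + phi v y := by
  unfold phi
  rw [← Finset.sum_add_distrib]
  apply Finset.sum_congr rfl
  intro i _
  rw [Pi.add_apply, add_smul]

theorem phi_ne {v : Fin m → Pl} (hv : LinearIndependent ℤ v) {x : Fin m → ℤ} (hx : x ≠ 0) :
    phi v x ≠ 0 := by
  intro h
  apply hx
  funext i
  exact Fintype.linearIndependent_iff.mp hv x h i

/-- parallel vectors -/
noncomputable def parS (v : Fin m → Pl) (u : Fin m → ℤ) : Submodule ℚ (Fin m → ℚ) :=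
  kerOf fun i => cr (phi v u) (v i)

/-- perpendicular vectors -/
noncomputable def perpS (v : Fin m → Pl) (u : Fin m → ℤ) : Submodule ℚ (Fin m → ℚ) :=
  kerOf fun i => dt (phi v u) (v i)

theorem mem_parS (v : Fin m → Pl) (u x : Fin m → ℤ) :
    toQ x ∈ parS v u ↔ cr (phi v u) (phi v x) = 0 := by
  unfold parS
  rw [mem_kerOf]
  have : ∑ i, ((toQ x i : ℚ) : ℝ) * cr (phi v u) (v i) = cr (phi v u) (phi v x) := by
    unfold cr toQ
    rw [phi_apply v x 0, phi_apply v x 1, Finset.mul_sum, Finset.mul_sum, ← Finset.sum_sub_distrib]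
    apply Finset.sum_congr rfl
    intro i _
    push_cast
    ring
  rw [this]

theorem mem_perpS (v : Fin m → Pl) (u x : Fin m → ℤ) :
    toQ x ∈ perpS v u ↔ dt (phi v u) (phi v x) = 0 := by
  unfold perpS
  rw [mem_kerOf]
  have : ∑ i, ((toQ x i : ℚ) : ℝ) * dt (phi v u) (v i) = dt (phi v u) (phi v x) := by
    unfold dt toQ
    rw [phi_apply v x 0, phi_apply v x 1, Finset.mul_sum, Finset.mul_sum, ← Finset.sum_add_distrib]
    apply Finset.sum_congr rfl
    intro i _
    push_cast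
    ring
  rw [this]

theorem coords_ne {a : Pl} (ha : a ≠ 0) : 0 < a 0 ^ 2 + a 1 ^ 2 := by
  by_contra h
  apply ha
  have h0 : a 0 = 0 := by nlinarith [sq_nonneg (a 0), sq_nonneg (a 1)]
  have h1 : a 1 = 0 := by nlinarith [sq_nonneg (a 0), sq_nonneg (a 1)]
  ext i
  fin_cases i
  · simpa using h0
  · simpa using h1

theorem parallel_of_cr {a b : Pl} (ha : a ≠ 0) (hb : b ≠ 0) (h : cr a b = 0) :
    ∃ l : ℝ, l ≠ 0 ∧ b 0 = l * a 0 ∧ b 1 = l * a 1 := by
  have hs := coords_ne ha
  have hsne : a 0 ^ 2 + a 1 ^ 2 ≠ 0 := ne_of_gt hs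
  unfold cr at h
  have e0 : b 0 = (a 0 * b 0 + a 1 * b 1) / (a 0 ^ 2 + a 1 ^ 2) * a 0 := by
    field_simp
    linear_combination (-a 1) * h
  have e1 : b 1 = (a 0 * b 0 + a 1 * b 1) / (a 0 ^ 2 + a 1 ^ 2) * a 1 := by
    field_simp
    linear_combination (a 0) * h
  refine ⟨(a 0 * b 0 + a 1 * b 1) / (a 0 ^ 2 + a 1 ^ 2), ?_, e0, e1⟩
  intro hl
  rw [hl, zero_mul] at e0 e1
  have := coords_ne hb
  rw [e0, e1] at this
  norm_num at this

theorem perp_of_dt {a b : Pl} (ha : a ≠ 0) (hb : b ≠ 0) (h : dt a b = 0) :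
    ∃ l : ℝ, l ≠ 0 ∧ b 0 = -l * a 1 ∧ b 1 = l * a 0 := by
  have hs := coords_ne ha
  have hsne : a 0 ^ 2 + a 1 ^ 2 ≠ 0 := ne_of_gt hs
  unfold dt at h
  have e0 : b 0 = -((a 0 * b 1 - a 1 * b 0) / (a 0 ^ 2 + a 1 ^ 2)) * a 1 := by
    field_simp
    linear_combination (a 0) * h
  have e1 : b 1 = (a 0 * b 1 - a 1 * b 0) / (a 0 ^ 2 + a 1 ^ 2) * a 0 := by
    field_simp
    linear_combination (a 1) * h
  refine ⟨(a 0 * b 1 - a 1 * b 0) / (a 0 ^ 2 + a 1 ^ 2), ?_, e0, e1⟩
  intro hl
  rw [hl] at e0 e1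
  have := coords_ne hb
  rw [e0, e1] at this
  norm_num at this

theorem hyp0 (v : Fin m → Pl) (u : Fin m → ℤ) : toQ u ∈ parS v u := by
  rw [mem_parS]; unfold cr; ring

theorem hyp1 {v : Fin m → Pl} (hv : LinearIndependent ℤ v) (u z : Fin m → ℤ) (hu : u ≠ 0)
    (hz : z ≠ 0) (h : toQ z ∈ parS v u) : parS v z = parS v u ∧ perpS v z = perpS v u := by
  rw [mem_parS] at h
  obtain ⟨l, hl, e0, e1⟩ := parallel_of_cr (phi_ne hv hu) (phi_ne hv hz) h
  constructor
  · apply kerOf_eq hl
    intro i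
    unfold cr
    rw [e0, e1]; ring
  · apply kerOf_eq hl
    intro i
    unfold dt
    rw [e0, e1]; ring

theorem hyp2 {v : Fin m → Pl} (hv : LinearIndependent ℤ v) (u w : Fin m → ℤ) (hu : u ≠ 0)
    (hw : w ≠ 0) (h : toQ w ∈ perpS v u) : perpS v u = parS v w ∧ perpS v w = parS v u := by
  rw [mem_perpS] at h
  obtain ⟨l, hl, e0, e1⟩ := perp_of_dt (phi_ne hv hu) (phi_ne hv hw) h
  constructor
  · symm
    apply kerOf_eq (neg_ne_zero.mpr hl)
    intro i
    unfold cr dt
    rw [e0, e1]; ring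
  · apply kerOf_eq hl
    intro i
    unfold cr dt
    rw [e0, e1]; ring

/-- squared length -/
def sl (a : Pl) : ℝ := a 0 ^ 2 + a 1 ^ 2

theorem dist_eq_sqrt (a b : Pl) : dist a b = Real.sqrt (sl (a - b)) := by
  rw [EuclideanSpace.dist_eq, Fin.sum_univ_two]
  unfold sl
  simp [Real.dist_eq, sq_abs]

/-- Cauchy-Schwarz for fibres -/
theorem cs_fiber {α β : Type*} [DecidableEq α] [DecidableEq β] (X : Finset α) (g : α → β) :
    X.card ^ 2 ≤ (X.image g).card * ((X ×ˢ X).filter (fun p => g p.1 = g p.2)).card := by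
  have h1 : X.card = ∑ t ∈ X.image g, (X.filter (fun x => g x = t)).card :=
    Finset.card_eq_sum_card_fiberwise (fun x hx => Finset.mem_image_of_mem g hx)
  have h2 : ((X ×ˢ X).filter (fun p => g p.1 = g p.2)).card
      = ∑ t ∈ X.image g, ((X.filter (fun x => g x = t)).card) ^ 2 := by
    rw [Finset.card_eq_sum_card_fiberwise (f := fun p : α × α => g p.1) (t := X.image g)]
    · apply Finset.sum_congr rfl
      intro t _
      rw [sq, ← Finset.card_product]
      congr 1
      ext p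
      simp only [Finset.mem_filter, Finset.mem_product]
      constructor
      · rintro ⟨⟨⟨h1, h2⟩, h3⟩, h4⟩
        exact ⟨⟨h1, h4⟩, ⟨h2, by rw [← h3]; exact h4⟩⟩
      · rintro ⟨⟨h1, h2⟩, ⟨h3, h4⟩⟩
        exact ⟨⟨⟨h1, h3⟩, by rw [h2, h4]⟩, h2⟩
    · intro p hp
      rw [Finset.mem_coe, Finset.mem_filter, Finset.mem_product] at hp
      exact Finset.mem_image_of_mem g hp.1.1
  rw [h2]
  conv_lhs => rw [h1]
  have := sq_sum_le_card_mul_sum_sq (s := X.image g) (f := fun t => (X.filter (fun x => g x = t)).card)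
  exact this

open Classical in
/-- energy bound -/
theorem energy (v : Fin m → Pl) (N : ℕ) (A : Finset (Fin m → ℤ)) (hA : A ⊆ box m N)
    (hne : A.Nonempty) (w : Pl) (P : Finset Pl)
    (hP : P = A.image (fun a => w + phi v a)) :
    (A.card : ℝ) ^ 2 ≤ ((P.offDiag.image (fun p => dist p.1 p.2)).card + 1) *
      (2 * (2 * ((4 * N : ℕ) : ℝ) + 1) ^ m +
        (((box m (4 * N) ×ˢ box m (4 * N)).filter
          (fun p => p.1 ≠ 0 ∧ p.2 ≠ 0 ∧ toQ p.2 ∈ perpS v p.1)).card : ℝ)) := by
  set X := (A ×ˢ A).image (fun p => p.1 - p.2) with hX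
  have hXbox : X ⊆ box m (2 * N) := by
    intro x hx
    rw [hX, Finset.mem_image] at hx
    obtain ⟨p, hp, rfl⟩ := hx
    rw [Finset.mem_product] at hp
    have h1 := mem_box.mp (hA hp.1)
    have h2 := mem_box.mp (hA hp.2)
    rw [mem_box]
    intro i
    have h3 := abs_le.mp (h1 i)
    have h4 := abs_le.mp (h2 i)
    rw [Pi.sub_apply, abs_le]
    push_cast
    constructor <;> linarith
  have hAX : A.card ≤ X.card := by
    obtain ⟨a0, ha0⟩ := hne
    apply Finset.card_le_card_of_injOn (fun a => a - a0)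
    · intro a ha
      rw [Finset.mem_coe, hX, Finset.mem_image]
      exact ⟨(a, a0), Finset.mem_product.mpr ⟨ha, ha0⟩, rfl⟩
    · intro a _ b _ hab
      exact sub_left_injective hab
  -- the set of lengths
  set g : (Fin m → ℤ) → ℝ := fun x => Real.sqrt (sl (phi v x)) with hg
  have himg : (X.image g).card ≤ (P.offDiag.image (fun p => dist p.1 p.2)).card + 1 := by
    have hsub : X.image g ⊆ insert 0 (P.offDiag.image (fun p => dist p.1 p.2)) := by
      intro t ht
      rw [Finset.mem_image] at ht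
      obtain ⟨x, hx, rfl⟩ := ht
      rw [hX, Finset.mem_image] at hx
      obtain ⟨p, hp, rfl⟩ := hx
      rw [Finset.mem_product] at hp
      have hd : g (p.1 - p.2) = dist (w + phi v p.1) (w + phi v p.2) := by
        rw [dist_eq_sqrt, hg]
        simp only
        rw [phi_sub, add_sub_add_left_eq_sub]
      rw [Finset.mem_insert]
      by_cases he : w + phi v p.1 = w + phi v p.2
      · left
        rw [hd, he, dist_self]
      · right
        rw [Finset.mem_image]
        refine ⟨(w + phi v p.1, w + phi v p.2), ?_, hd.symm⟩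
        rw [Finset.mem_offDiag, hP]
        exact ⟨Finset.mem_image_of_mem _ hp.1, Finset.mem_image_of_mem _ hp.2, he⟩
    exact (Finset.card_le_card hsub).trans (Finset.card_insert_le _ _)
  have hcs := cs_fiber X g
  -- injection
  set B := box m (4 * N) with hB
  have hB0 : (0 : Fin m → ℤ) ∈ B := by
    rw [hB, mem_box]; intro i; simp
  have hinj : ((X ×ˢ X).filter (fun p => g p.1 = g p.2)).card ≤
      (({0} ×ˢ B) ∪ ((B ×ˢ {0}) ∪ ((B ×ˢ B).filter
          (fun p => p.1 ≠ 0 ∧ p.2 ≠ 0 ∧ toQ p.2 ∈ perpS v p.1)))).card := by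
    apply Finset.card_le_card_of_injOn (fun p => (p.1 - p.2, p.1 + p.2))
    · intro p hp
      rw [Finset.mem_coe, Finset.mem_filter, Finset.mem_product] at hp
      obtain ⟨⟨hp1, hp2⟩, hpg⟩ := hp
      have hb1 := mem_box.mp (hXbox hp1)
      have hb2 := mem_box.mp (hXbox hp2)
      have hm1 : p.1 - p.2 ∈ B := by
        rw [hB, mem_box]
        intro i
        have h3 := abs_le.mp (hb1 i)
        have h4 := abs_le.mp (hb2 i)
        push_cast at h3 h4 ⊢
        rw [Pi.sub_apply, abs_le]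
        constructor <;> linarith
      have hm2 : p.1 + p.2 ∈ B := by
        rw [hB, mem_box]
        intro i
        have h3 := abs_le.mp (hb1 i)
        have h4 := abs_le.mp (hb2 i)
        push_cast at h3 h4 ⊢
        rw [Pi.add_apply, abs_le]
        constructor <;> linarith
      have hperp : toQ (p.1 + p.2) ∈ perpS v (p.1 - p.2) := by
        rw [mem_perpS, phi_sub, phi_add]
        have hs : sl (phi v p.1) = sl (phi v p.2) := by
          have h5 : 0 ≤ sl (phi v p.1) := by unfold sl; positivity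
          have h6 : 0 ≤ sl (phi v p.2) := by unfold sl; positivity
          exact (Real.sqrt_inj h5 h6).mp hpg
        unfold sl at hs
        unfold dt
        simp only [PiLp.sub_apply, PiLp.add_apply]
        linear_combination hs
      rw [Finset.mem_coe, Finset.mem_union, Finset.mem_union]
      by_cases h1 : p.1 - p.2 = 0
      · left
        exact Finset.mem_product.mpr ⟨Finset.mem_singleton.mpr h1, hm2⟩
      · by_cases h2 : p.1 + p.2 = 0
        · right; left
          exact Finset.mem_product.mpr ⟨hm1, Finset.mem_singleton.mpr h2⟩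
        · right; right
          exact Finset.mem_filter.mpr ⟨Finset.mem_product.mpr ⟨hm1, hm2⟩, h1, h2, hperp⟩
    · intro p _ q _ hpq
      simp only [Prod.mk.injEq] at hpq
      obtain ⟨e1, e2⟩ := hpq
      have f1 : p.1 = q.1 := by
        funext i
        have a1 := congrFun e1 i
        have a2 := congrFun e2 i
        simp only [Pi.sub_apply, Pi.add_apply] at a1 a2
        linarith
      have f2 : p.2 = q.2 := by
        rw [f1] at e2
        exact add_left_cancel e2
      exact Prod.ext f1 f2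
  have hun : (({0} ×ˢ B) ∪ ((B ×ˢ {0}) ∪ ((B ×ˢ B).filter
          (fun p => p.1 ≠ 0 ∧ p.2 ≠ 0 ∧ toQ p.2 ∈ perpS v p.1)))).card ≤
        2 * (2 * (4 * N) + 1) ^ m + ((B ×ˢ B).filter
          (fun p => p.1 ≠ 0 ∧ p.2 ≠ 0 ∧ toQ p.2 ∈ perpS v p.1)).card := by
    refine (Finset.card_union_le _ _).trans ?_
    have h1 := Finset.card_union_le (B ×ˢ ({0} : Finset (Fin m → ℤ))) ((B ×ˢ B).filter
          (fun p => p.1 ≠ 0 ∧ p.2 ≠ 0 ∧ toQ p.2 ∈ perpS v p.1))
    rw [Finset.card_product, Finset.card_singleton, one_mul]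
    rw [Finset.card_product, Finset.card_singleton, mul_one] at h1
    rw [hB, card_box] at *
    omega
  have hfin : A.card ^ 2 ≤ ((P.offDiag.image (fun p => dist p.1 p.2)).card + 1) *
      (2 * (2 * (4 * N) + 1) ^ m + ((B ×ˢ B).filter
          (fun p => p.1 ≠ 0 ∧ p.2 ≠ 0 ∧ toQ p.2 ∈ perpS v p.1)).card) := by
    calc A.card ^ 2 ≤ X.card ^ 2 := Nat.pow_le_pow_left hAX 2
      _ ≤ _ := hcs
      _ ≤ _ := Nat.mul_le_mul himg (hinj.trans hun)
  have := (Nat.cast_le (α := ℝ)).mpr hfin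
  push_cast at this ⊢
  exact this

end Pool.Agent.Few65
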