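import Pool.Agent.Few65.Geo

set_option autoImplicit false

namespace Pool.Agent.Few65

open Finset

variable {m : ℕ}

/-- pigeonhole modulo a rational subspace -/
theorem pigeon (V : Submodule ℚ (Fin m → ℚ)) :
    ∃ K : ℕ, ∀ (N : ℕ) (A : Finset (Fin m → ℤ)), A ⊆ box m N → A.Nonempty →
      ∃ a0 ∈ A, ∃ F ⊆ A, (∀ x ∈ F, toQ (x - a0) ∈ V) ∧
        A.card ≤ F.card * ((K + 1) * (2 * N + 1)) ^ (m - Module.finrank ℚ V) := by
  classical
  set k := Module.finrank ℚ ((Fin m → ℚ) ⧸ V) with hk
  have hkm : k = m - Module.finrank ℚ V := by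
    have := Submodule.finrank_quotient_add_finrank V
    rw [Module.finrank_fin_fun] at this
    omega
  let b := Module.finBasis ℚ ((Fin m → ℚ) ⧸ V)
  let L : (Fin m → ℚ) →ₗ[ℚ] (Fin k → ℚ) := b.equivFun.toLinearMap.comp V.mkQ
  have hL : ∀ x, L x = 0 → x ∈ V := by
    intro x hx
    have h1 : b.equivFun (V.mkQ x) = 0 := hx
    have h2 : V.mkQ x = 0 := by
      rw [← LinearEquiv.map_zero b.equivFun] at h1
      exact b.equivFun.injective h1
    exact (Submodule.Quotient.mk_eq_zero V).mp h2
  let d : ℕ := ∏ i : Fin m, ∏ j : Fin k, (L (Pi.single i 1) j).den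
  have hd : 0 < d := Finset.prod_pos fun i _ => Finset.prod_pos fun j _ => (L (Pi.single i 1) j).den_pos
  have hex : ∀ i j, ∃ e : ℤ, (e : ℚ) = d * L (Pi.single i 1) j := by
    intro i j
    have hdvd : (L (Pi.single i 1) j).den ∣ d :=
      (Finset.dvd_prod_of_mem (fun j => (L (Pi.single i 1) j).den) (Finset.mem_univ j)).trans
        (Finset.dvd_prod_of_mem (fun i => ∏ j : Fin k, (L (Pi.single i 1) j).den) (Finset.mem_univ i))
    obtain ⟨q, hq⟩ := hdvd
    refine ⟨q * (L (Pi.single i 1) j).num, ?_⟩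
    rw [hq]
    push_cast
    have h3 := Rat.mul_den_eq_num (L (Pi.single i 1) j)
    calc (q : ℚ) * ((L (Pi.single i 1) j).num : ℚ)
        = q * (L (Pi.single i 1) j * (L (Pi.single i 1) j).den) := by rw [h3]
      _ = _ := by ring
  choose e he using hex
  let ell : (Fin m → ℤ) → (Fin k → ℤ) := fun x j => ∑ i, x i * e i j
  have hell : ∀ x j, ((ell x j : ℤ) : ℚ) = d * L (toQ x) j := by
    intro x j
    have h4 : toQ x = ∑ i, (x i : ℚ) • (Pi.single i 1 : Fin m → ℚ) := by
      funext l
      simp [toQ, Finset.sum_apply, Pi.single_apply]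
    rw [h4, map_sum, Finset.sum_apply, Finset.mul_sum]
    simp only [ell]
    push_cast
    apply Finset.sum_congr rfl
    intro i _
    rw [map_smul, Pi.smul_apply, smul_eq_mul, he]
    ring
  let K : ℕ := ∑ i, ∑ j, (e i j).natAbs
  refine ⟨K, ?_⟩
  intro N A hA hne
  obtain ⟨y0, hy0, hmax⟩ := Finset.exists_max_image (A.image ell)
    (fun y => (A.filter (fun x => ell x = y)).card) (hne.image ell)
  rw [Finset.mem_image] at hy0
  obtain ⟨a0, ha0, ha0y⟩ := hy0
  refine ⟨a0, ha0, A.filter (fun x => ell x = y0), Finset.filter_subset _ _, ?_, ?_⟩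
  · intro x hx
    rw [Finset.mem_filter] at hx
    apply hL
    funext j
    have h5 : ((ell x j : ℤ) : ℚ) = ((ell a0 j : ℤ) : ℚ) := by rw [hx.2, ha0y]
    rw [hell, hell] at h5
    have hd0 : (d : ℚ) ≠ 0 := by exact_mod_cast (ne_of_gt hd)
    have h6 := mul_left_cancel₀ hd0 h5
    rw [toQ_sub, map_sub, Pi.sub_apply, h6, sub_self, Pi.zero_apply]
  · have h7 := Finset.card_le_mul_card_image (f := ell) A
      ((A.filter (fun x => ell x = y0)).card) (fun y hy => hmax y hy)
    refine h7.trans (Nat.mul_le_mul_left _ ?_)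
    have h8 : A.image ell ⊆ Fintype.piFinset (fun _ : Fin k => Finset.Icc (-((K * N : ℕ) : ℤ)) ((K * N : ℕ) : ℤ)) := by
      intro y hy
      rw [Finset.mem_image] at hy
      obtain ⟨x, hx, rfl⟩ := hy
      rw [Fintype.mem_piFinset]
      intro j
      rw [Finset.mem_Icc, ← abs_le]
      have hxb := mem_box.mp (hA hx)
      calc |ell x j| ≤ ∑ i, |x i * e i j| := Finset.abs_sum_le_sum_abs _ _
        _ ≤ ∑ i, (N : ℤ) * ((e i j).natAbs : ℤ) := by
            apply Finset.sum_le_sum
            intro i _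
            rw [abs_mul, Int.abs_eq_natAbs (e i j)]
            exact mul_le_mul_of_nonneg_right (hxb i) (by positivity)
        _ = (N : ℤ) * ((∑ i, (e i j).natAbs : ℕ) : ℤ) := by
            rw [← Finset.mul_sum]; push_cast; rfl
        _ ≤ (N : ℤ) * (K : ℤ) := by
            apply mul_le_mul_of_nonneg_left _ (by positivity)
            have : ∑ i, (e i j).natAbs ≤ K := by
              apply Finset.sum_le_sum
              intro i _
              exact Finset.single_le_sum (f := fun j => (e i j).natAbs) (fun _ _ => Nat.zero_le _)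
                (Finset.mem_univ j)
            exact_mod_cast this
        _ = ((K * N : ℕ) : ℤ) := by push_cast; ring
    have h9 := Finset.card_le_card h8
    rw [Fintype.card_piFinset] at h9
    simp only [Finset.prod_const, Finset.card_univ, Fintype.card_fin, Int.card_Icc] at h9
    refine h9.trans ?_
    rw [hkm]
    apply Nat.pow_le_pow_left
    have h10 : (((K * N : ℕ) : ℤ) + 1 - -((K * N : ℕ) : ℤ)).toNat = 2 * (K * N) + 1 := by omega
    rw [h10]
    nlinarith [Nat.zero_le (K * N), Nat.zero_le K, Nat.zero_le N]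

theorem phi_inj {v : Fin m → Pl} (hv : LinearIndependent ℤ v) (w : Pl) :
    Function.Injective (fun a : Fin m → ℤ => w + phi v a) := by
  intro a b hab
  by_contra hne
  have h1 : phi v a = phi v b := add_left_cancel hab
  have h2 : phi v (a - b) = 0 := by rw [phi_sub, h1, sub_self]
  exact phi_ne hv (sub_ne_zero.mpr hne) h2

theorem exists_ne_pl (p : Pl) : ∃ q : Pl, p ≠ q := by
  refine ⟨p + EuclideanSpace.single 0 1, ?_⟩
  intro h
  have h1 : (EuclideanSpace.single (0 : Fin 2) (1 : ℝ) : Pl) = 0 := by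
    have h2 : p + EuclideanSpace.single (0 : Fin 2) (1 : ℝ) = p + 0 := by rw [add_zero]; exact h.symm
    exact add_left_cancel h2
  have h3 := congrArg (fun x : Pl => x 0) h1
  simp at h3

theorem triv_line (P : Finset Pl) (hP : P.Nonempty) :
    ∃ a b : Pl, a ≠ b ∧
      (1 : ℝ) ≤ (((P : Set Pl) ∩ (affineSpan ℝ {a, b} : Set Pl)).ncard : ℝ) := by
  obtain ⟨p, hp⟩ := hP
  obtain ⟨q, hq⟩ := exists_ne_pl p
  refine ⟨p, q, hq, ?_⟩
  have h1 : 0 < ((P : Set Pl) ∩ (affineSpan ℝ {p, q} : Set Pl)).ncard := by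
    rw [Set.ncard_pos (P.finite_toSet.inter_of_left _)]
    exact ⟨p, hp, left_mem_affineSpan_pair ℝ p q⟩
  exact_mod_cast h1

theorem main (m : ℕ) (v : Fin m → Pl) (hv : LinearIndependent ℤ v) (δ : ℝ) (hδ : 0 < δ) :
    ∃ c η : ℝ, 0 < c ∧ 0 < η ∧
      ∀ (N : ℕ) (w : Pl) (P : Finset Pl),
        (∀ p ∈ P, ∃ a : Fin m → ℤ, (∀ i, |a i| ≤ (N : ℤ)) ∧ p = w + ∑ i, a i • v i) →
        δ * (2 * (N : ℝ) + 1) ^ m ≤ (P.card : ℝ) →
        ((P.offDiag.image (fun p => dist p.1 p.2)).card : ℝ) ≤ η * (P.card : ℝ) →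
          ∃ a b : Pl, a ≠ b ∧
            c * Real.sqrt (P.card : ℝ)
              ≤ (((P : Set Pl) ∩ (affineSpan ℝ {a, b} : Set Pl)).ncard : ℝ) := by
  classical
  by_cases hB : ∃ z : Fin m → ℤ, z ≠ 0 ∧ m ≤ 2 * Module.finrank ℚ (parS v z)
  · -- a rational line of high rank
    obtain ⟨z, hz, hzm⟩ := hB
    obtain ⟨K, hK⟩ := pigeon (parS v z)
    have hK1 : (1 : ℝ) ≤ (K : ℝ) + 1 := by
      have : (0 : ℝ) ≤ K := Nat.cast_nonneg K
      linarith
    refine ⟨Real.sqrt (δ / ((K : ℝ) + 1) ^ (2 * m)), 1, Real.sqrt_pos.mpr (by positivity),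
      one_pos, ?_⟩
    intro N w P hP hcard _
    set A := (box m N).filter (fun a => w + phi v a ∈ P) with hA
    have hPA : P = A.image (fun a => w + phi v a) := by
      ext p
      rw [Finset.mem_image]
      constructor
      · intro hp
        obtain ⟨a, ha, hpa⟩ := hP p hp
        refine ⟨a, ?_, hpa.symm⟩
        rw [hA, Finset.mem_filter]
        refine ⟨mem_box.mpr ha, ?_⟩
        have : w + phi v a = p := hpa.symm
        rw [this]; exact hp
      · rintro ⟨a, ha, rfl⟩
        exact (Finset.mem_filter.mp ha).2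
    have hcardA : A.card = P.card := by
      conv_rhs => rw [hPA]
      exact (Finset.card_image_of_injective _ (phi_inj hv w)).symm
    have hNpos : (0 : ℝ) < 2 * (N : ℝ) + 1 := by positivity
    have hnpos : (0 : ℝ) < P.card := lt_of_lt_of_le (by positivity) hcard
    have hAne : A.Nonempty := by
      rw [← Finset.card_pos, hcardA]; exact_mod_cast hnpos
    obtain ⟨a0, ha0, F, hFA, hFV, hAF⟩ := hK N A (Finset.filter_subset _ _) hAne
    refine ⟨w + phi v a0, w + phi v a0 + phi v z, ?_, ?_⟩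
    · intro h
      apply phi_ne hv hz
      have h2 : w + phi v a0 + 0 = w + phi v a0 + phi v z := by rw [add_zero]; exact h
      exact (add_left_cancel h2).symm
    · -- the points of F on the line
      have hsub : ((F.image (fun a => w + phi v a) : Finset Pl) : Set Pl) ⊆
          (P : Set Pl) ∩ (affineSpan ℝ {w + phi v a0, w + phi v a0 + phi v z} : Set Pl) := by
        intro p hp
        rw [Finset.mem_coe, Finset.mem_image] at hp
        obtain ⟨x, hx, rfl⟩ := hp
        constructor
        · exact (Finset.mem_filter.mp (hFA hx)).2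
        · have hxV := hFV x hx
          rw [mem_parS] at hxV
          by_cases hx0 : x = a0
          · subst hx0
            exact left_mem_affineSpan_pair ℝ _ _
          · obtain ⟨l, -, e0, e1⟩ := parallel_of_cr (phi_ne hv hz)
              (phi_ne hv (sub_ne_zero.mpr hx0)) hxV
            have h3 : w + phi v x = AffineMap.lineMap (w + phi v a0) (w + phi v a0 + phi v z) l := by
              rw [AffineMap.lineMap_apply, vsub_eq_sub, vadd_eq_add, add_sub_cancel_left]
              have h4 : phi v x = l • phi v z + phi v a0 := by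
                have h5 : phi v (x - a0) = l • phi v z := by
                  ext i
                  fin_cases i
                  · simpa using e0
                  · simpa using e1
                rw [phi_sub] at h5
                rw [← h5]; abel
              rw [h4]; abel
            rw [h3]
            exact AffineMap.lineMap_mem_affineSpan_pair l _ _
      have hle := Set.ncard_le_ncard hsub (P.finite_toSet.inter_of_left _)
      rw [Set.ncard_coe_finset, Finset.card_image_of_injective _ (phi_inj hv w)] at hle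
      have hle' : (F.card : ℝ) ≤ (((P : Set Pl) ∩
        (affineSpan ℝ {w + phi v a0, w + phi v a0 + phi v z} : Set Pl)).ncard : ℝ) := by
        exact_mod_cast hle
      refine le_trans ?_ hle'
      -- numerical part
      have h6 : (P.card : ℝ) ≤ (F.card : ℝ) * (((K : ℝ) + 1) * (2 * (N : ℝ) + 1)) ^
          (m - Module.finrank ℚ (parS v z)) := by
        rw [← hcardA]
        exact_mod_cast hAF
      set k := m - Module.finrank ℚ (parS v z) with hk
      have hk2 : 2 * k ≤ m := by omega
      have h7 : (P.card : ℝ) ^ 2 ≤ (F.card : ℝ) ^ 2 * (((K : ℝ) + 1) ^ (2 * m) *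
          (2 * (N : ℝ) + 1) ^ m) := by
        calc (P.card : ℝ) ^ 2 ≤ ((F.card : ℝ) * (((K : ℝ) + 1) * (2 * (N : ℝ) + 1)) ^ k) ^ 2 :=
              pow_le_pow_left₀ hnpos.le h6 2
          _ = (F.card : ℝ) ^ 2 * (((K : ℝ) + 1) ^ (2 * k) * (2 * (N : ℝ) + 1) ^ (2 * k)) := by
              rw [mul_pow, mul_pow, mul_pow, ← pow_mul, ← pow_mul, mul_comm k 2]
          _ ≤ _ := by
              apply mul_le_mul_of_nonneg_left _ (sq_nonneg _)
              apply mul_le_mul
              · exact pow_le_pow_right₀ hK1 (by omega)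
              · exact pow_le_pow_right₀ (by linarith [(Nat.cast_nonneg N : (0 : ℝ) ≤ N)]) hk2
              · positivity
              · positivity
      have h8 : δ * (P.card : ℝ) ^ 2 ≤ (F.card : ℝ) ^ 2 * ((K : ℝ) + 1) ^ (2 * m) * P.card := by
        calc δ * (P.card : ℝ) ^ 2 ≤ δ * ((F.card : ℝ) ^ 2 * (((K : ℝ) + 1) ^ (2 * m) *
              (2 * (N : ℝ) + 1) ^ m)) := mul_le_mul_of_nonneg_left h7 hδ.le
          _ = (F.card : ℝ) ^ 2 * ((K : ℝ) + 1) ^ (2 * m) * (δ * (2 * (N : ℝ) + 1) ^ m) := by ring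
          _ ≤ _ := mul_le_mul_of_nonneg_left hcard
            (mul_nonneg (sq_nonneg _) (pow_nonneg (by linarith) _))
      have h9 : δ / ((K : ℝ) + 1) ^ (2 * m) * (P.card : ℝ) ≤ (F.card : ℝ) ^ 2 := by
        rw [div_mul_eq_mul_div, div_le_iff₀ (by positivity)]
        have h10 : δ * (P.card : ℝ) * P.card ≤ (F.card : ℝ) ^ 2 * ((K : ℝ) + 1) ^ (2 * m) * P.card := by
          calc δ * (P.card : ℝ) * P.card = δ * (P.card : ℝ) ^ 2 := by ring
            _ ≤ _ := h8
        exact le_of_mul_le_mul_right h10 hnpos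
      rw [← Real.sqrt_mul (by positivity)]
      calc Real.sqrt (δ / ((K : ℝ) + 1) ^ (2 * m) * (P.card : ℝ))
          ≤ Real.sqrt ((F.card : ℝ) ^ 2) := Real.sqrt_le_sqrt h9
        _ = (F.card : ℝ) := Real.sqrt_sq (Nat.cast_nonneg _)
  · -- no such line : linearly many distances
    push Not at hB
    set C1 : ℝ := 4 * m * (3 * (4 * 3 ^ m)) ^ (m - 1) * 2 ^ m with hC1
    set C2 : ℝ := (2 * 4 ^ m + C1) / δ with hC2
    have hC1' : 0 ≤ C1 := by positivity
    have hC2' : 0 < C2 := by positivity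
    refine ⟨Real.sqrt (1 / (2 * C2)), 1 / (2 * C2), Real.sqrt_pos.mpr (by positivity),
      by positivity, ?_⟩
    intro N w P hP hcard hD
    set A := (box m N).filter (fun a => w + phi v a ∈ P) with hA
    have hPA : P = A.image (fun a => w + phi v a) := by
      ext p
      rw [Finset.mem_image]
      constructor
      · intro hp
        obtain ⟨a, ha, hpa⟩ := hP p hp
        refine ⟨a, ?_, hpa.symm⟩
        rw [hA, Finset.mem_filter]
        refine ⟨mem_box.mpr ha, ?_⟩
        have : w + phi v a = p := hpa.symm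
        rw [this]; exact hp
      · rintro ⟨a, ha, rfl⟩
        exact (Finset.mem_filter.mp ha).2
    have hcardA : A.card = P.card := by
      conv_rhs => rw [hPA]
      exact (Finset.card_image_of_injective _ (phi_inj hv w)).symm
    have hN0 : (0 : ℝ) ≤ N := Nat.cast_nonneg N
    have hNpos : (0 : ℝ) < 2 * (N : ℝ) + 1 := by positivity
    have hnpos : (0 : ℝ) < P.card := lt_of_lt_of_le (by positivity) hcard
    have hPne : P.Nonempty := by
      rw [← Finset.card_pos]; exact_mod_cast hnpos
    have hAne : A.Nonempty := by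
      rw [← Finset.card_pos, hcardA]; exact_mod_cast hnpos
    obtain ⟨a, b, hab, hline⟩ := triv_line P hPne
    refine ⟨a, b, hab, le_trans ?_ hline⟩
    -- the energy
    have hen := energy v N A (Finset.filter_subset _ _) hAne w P hPA
    set D : ℝ := ((P.offDiag.image (fun p => dist p.1 p.2)).card : ℝ) with hDdef
    set T : ℝ := (((box m (4 * N) ×ˢ box m (4 * N)).filter
          (fun p => p.1 ≠ 0 ∧ p.2 ≠ 0 ∧ toQ p.2 ∈ perpS v p.1)).card : ℝ) with hTdef
    have hT : T ≤ C1 * (2 * (N : ℝ) + 1) ^ m := by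
      rcases Nat.eq_zero_or_pos N with hN | hN
      · have : T = 0 := by
          rw [hTdef]
          norm_cast
          rw [Finset.card_eq_zero, Finset.filter_eq_empty_iff]
          intro p hp
          rw [Finset.mem_product, mem_box_iff_nrm, mem_box_iff_nrm, hN] at hp
          intro hh
          have := nrm_pos hh.1
          omega
        rw [this]
        positivity
      · have h1 := count_perp (parS v) (perpS v) (fun u _ => hyp0 v u) (hyp1 hv) (hyp2 hv) hB
          (4 * N) (by omega)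
        have h2 : T ≤ 2 * (2 * m * (3 * (4 * 3 ^ m) * ((4 * N : ℕ) : ℝ)) ^ (m - 1) * ((4 * N : ℕ) : ℝ)) := by
          rw [hTdef]
          convert h1
        refine h2.trans ?_
        rcases Nat.eq_zero_or_pos m with hm | hm
        · subst hm
          simp [hC1]
        · have h3 : ((4 * N : ℕ) : ℝ) ≤ 2 * (2 * (N : ℝ) + 1) := by push_cast; linarith
          have h4 : 2 * (2 * m * (3 * (4 * 3 ^ m) * ((4 * N : ℕ) : ℝ)) ^ (m - 1) * ((4 * N : ℕ) : ℝ))
              = 4 * m * (3 * (4 * 3 ^ m)) ^ (m - 1) * ((4 * N : ℕ) : ℝ) ^ m := by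
            obtain ⟨m', rfl⟩ : ∃ m', m = m' + 1 := ⟨m - 1, by omega⟩
            rw [Nat.add_sub_cancel, mul_pow _ (((4 * N : ℕ) : ℝ)), pow_succ (((4 * N : ℕ) : ℝ))]
            ring
          rw [h4, hC1]
          calc 4 * (m : ℝ) * (3 * (4 * 3 ^ m)) ^ (m - 1) * ((4 * N : ℕ) : ℝ) ^ m
              ≤ 4 * (m : ℝ) * (3 * (4 * 3 ^ m)) ^ (m - 1) * (2 * (2 * (N : ℝ) + 1)) ^ m := by
                apply mul_le_mul_of_nonneg_left _ (by positivity)
                exact pow_le_pow_left₀ (Nat.cast_nonneg _) h3 m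
            _ = _ := by rw [mul_pow 2 (2 * (N : ℝ) + 1) m]; ring
    have h8 : (2 * ((4 * N : ℕ) : ℝ) + 1) ^ m ≤ 4 ^ m * (2 * (N : ℝ) + 1) ^ m := by
      rw [← mul_pow]
      apply pow_le_pow_left₀ (by positivity)
      push_cast; linarith
    have h9 : 2 * (2 * ((4 * N : ℕ) : ℝ) + 1) ^ m + T ≤ C2 * P.card := by
      calc 2 * (2 * ((4 * N : ℕ) : ℝ) + 1) ^ m + T
          ≤ 2 * (4 ^ m * (2 * (N : ℝ) + 1) ^ m) + C1 * (2 * (N : ℝ) + 1) ^ m := by linarith
        _ = (2 * 4 ^ m + C1) / δ * (δ * (2 * (N : ℝ) + 1) ^ m) := by field_simp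
        _ ≤ C2 * P.card := mul_le_mul_of_nonneg_left hcard hC2'.le
    have hD0 : 0 ≤ D := Nat.cast_nonneg _
    have h10 : (P.card : ℝ) ^ 2 ≤ (D + 1) * (C2 * P.card) := by
      calc (P.card : ℝ) ^ 2 = (A.card : ℝ) ^ 2 := by rw [hcardA]
        _ ≤ (D + 1) * (2 * (2 * ((4 * N : ℕ) : ℝ) + 1) ^ m + T) := by
            convert hen
        _ ≤ _ := mul_le_mul_of_nonneg_left h9 (by linarith)
    have h11 : (P.card : ℝ) ≤ (D + 1) * C2 := by
      have : (P.card : ℝ) * P.card ≤ (D + 1) * C2 * P.card := by nlinarith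
      exact le_of_mul_le_mul_right this hnpos
    have h12 : (P.card : ℝ) ≤ 2 * C2 := by
      have h13 : (D + 1) * C2 ≤ (1 / (2 * C2) * P.card + 1) * C2 :=
        mul_le_mul_of_nonneg_right (by linarith) hC2'.le
      have h15 : ∀ n : ℝ, (1 / (2 * C2) * n + 1) * C2 = n / 2 + C2 := by
        intro n
        field_simp
      have h14 := h15 (P.card : ℝ)
      linarith
    rw [← Real.sqrt_mul (by positivity)]
    refine (Real.sqrt_le_sqrt (y := 1) ?_).trans_eq Real.sqrt_one
    rw [div_mul_eq_mul_div, one_mul, div_le_one (by positivity)]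
    exact h12

end Pool.Agent.Few65
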