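import Mathlib

set_option autoImplicit false

namespace Pool.Agent.Few65

open Finset

variable {m : ℕ}

/-- Pivot coordinates of a rational subspace. -/
theorem pivots (a : ℕ) : ∀ (V : Submodule ℚ (Fin m → ℚ)), Module.finrank ℚ V ≤ a →
    ∃ I : Finset (Fin m), I.card ≤ Module.finrank ℚ V ∧
      ∀ x ∈ V, ∀ t : ℚ, 0 ≤ t → (∀ i ∈ I, |x i| ≤ t) → ∀ i, |x i| ≤ 3 ^ a * t := by
  classical
  induction a with
  | zero =>
    intro V hV
    refine ⟨∅, by simp, ?_⟩
    intro x hx t ht _ i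
    have h0 : V = ⊥ := by
      apply Submodule.finrank_eq_zero.mp; omega
    rw [h0, Submodule.mem_bot] at hx
    subst hx
    simp [ht]
  | succ a ih =>
    intro V hV
    by_cases hbot : V = ⊥
    · refine ⟨∅, by simp, ?_⟩
      intro x hx t ht _ i
      rw [hbot, Submodule.mem_bot] at hx
      subst hx
      simp
      positivity
    · obtain ⟨x0, hx0V, hx0⟩ := Submodule.exists_mem_ne_zero_of_ne_bot hbot
      obtain ⟨j, hj⟩ : ∃ j, x0 j ≠ 0 := by
        by_contra h
        push Not at h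
        exact hx0 (funext h)
      obtain ⟨i0, -, hi0⟩ := Finset.exists_max_image (Finset.univ : Finset (Fin m))
        (fun i => |x0 i|) ⟨j, Finset.mem_univ _⟩
      have hpos : 0 < |x0 i0| := lt_of_lt_of_le (abs_pos.mpr hj) (hi0 j (Finset.mem_univ _))
      have hne : x0 i0 ≠ 0 := abs_pos.mp hpos
      let V' : Submodule ℚ (Fin m → ℚ) := V ⊓ LinearMap.ker (LinearMap.proj i0 : (Fin m → ℚ) →ₗ[ℚ] ℚ)
      have hlt : V' < V := by
        refine lt_of_le_of_ne inf_le_left ?_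
        intro h
        have : x0 ∈ V' := h ▸ hx0V
        have h2 := (Submodule.mem_inf.mp this).2
        rw [LinearMap.mem_ker] at h2
        exact hne h2
      have hfr : Module.finrank ℚ V' < Module.finrank ℚ V := Submodule.finrank_lt_finrank_of_lt hlt
      obtain ⟨I', hI', hP⟩ := ih V' (by omega)
      refine ⟨insert i0 I', ?_, ?_⟩
      · calc (insert i0 I').card ≤ I'.card + 1 := Finset.card_insert_le _ _
          _ ≤ Module.finrank ℚ V := by omega
      · intro x hx t ht hxI i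
        set c : ℚ := x i0 / x0 i0 with hc
        have hx' : x - c • x0 ∈ V' := by
          refine Submodule.mem_inf.mpr ⟨V.sub_mem hx (V.smul_mem _ hx0V), ?_⟩
          rw [LinearMap.mem_ker]
          simp [hc, hne]
        have hc0 : |x i0| ≤ t := hxI i0 (Finset.mem_insert_self _ _)
        have hcx : ∀ k, |c * x0 k| ≤ t := by
          intro k
          have h1 : |x0 k| ≤ |x0 i0| := hi0 k (Finset.mem_univ _)
          have : |c * x0 k| = |x i0| * (|x0 k| / |x0 i0|) := by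
            rw [hc, abs_mul, abs_div]; field_simp
          rw [this]
          have h2 : |x0 k| / |x0 i0| ≤ 1 := by
            rw [div_le_one hpos]; exact h1
          have h3 : 0 ≤ |x0 k| / |x0 i0| := by positivity
          nlinarith [abs_nonneg (x i0)]
        have hsm : ∀ k ∈ I', |(x - c • x0) k| ≤ 2 * t := by
          intro k hk
          have h1 : |x k| ≤ t := hxI k (Finset.mem_insert_of_mem hk)
          have h2 := hcx k
          simp only [Pi.sub_apply, Pi.smul_apply, smul_eq_mul]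
          calc |x k - c * x0 k| ≤ |x k| + |c * x0 k| := abs_sub _ _
            _ ≤ 2 * t := by linarith
        have h4 := hP _ hx' (2 * t) (by linarith) hsm i
        have h5 := hcx i
        have h6 : x i = (x - c • x0) i + c * x0 i := by simp
        rw [h6]
        have h7 : (1 : ℚ) ≤ 3 ^ a := one_le_pow₀ (by norm_num)
        calc |(x - c • x0) i + c * x0 i| ≤ |(x - c • x0) i| + |c * x0 i| := abs_add_le _ _
          _ ≤ 3 ^ a * (2 * t) + t := by linarith
          _ ≤ 3 ^ (a + 1) * t := by rw [pow_succ]; nlinarith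

/-- the integer box -/
noncomputable def box (m N : ℕ) : Finset (Fin m → ℤ) :=
  Fintype.piFinset fun _ => Finset.Icc (-(N : ℤ)) N

theorem mem_box {N : ℕ} {x : Fin m → ℤ} : x ∈ box m N ↔ ∀ i, |x i| ≤ (N : ℤ) := by
  simp only [box, Fintype.mem_piFinset, Finset.mem_Icc, abs_le]

theorem card_box (N : ℕ) : (box m N).card = (2 * N + 1) ^ m := by
  simp only [box, Fintype.card_piFinset, Finset.prod_const, Int.card_Icc, Finset.card_univ,
    Fintype.card_fin]
  congr 1
  omega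

/-- cast to rational vectors -/
def toQ (x : Fin m → ℤ) : Fin m → ℚ := fun i => (x i : ℚ)

theorem toQ_sub (x y : Fin m → ℤ) : toQ (x - y) = toQ x - toQ y := by
  funext i; simp [toQ]

open Classical in
/-- packing -/
theorem pack (V : Submodule ℚ (Fin m → ℚ)) (M N : ℕ) (hM : 1 ≤ M) (hMN : M ≤ N)
    (hmin : ∀ x : Fin m → ℤ, toQ x ∈ V → x ≠ 0 → ∃ i, (M : ℤ) ≤ |x i|) :
    (((box m N).filter (fun x => toQ x ∈ V)).card : ℝ)
      ≤ (4 * 3 ^ m * (N / M)) ^ (Module.finrank ℚ V) := by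
  classical
  obtain ⟨I, hI, hP⟩ := pivots (m := m) m V (by
    have := Submodule.finrank_le V
    simpa using this)
  -- cell width
  set q : ℕ := (M + 3 ^ m - 1) / 3 ^ m with hq
  have h3 : 0 < 3 ^ m := by positivity
  have hq1 : 1 ≤ q := by
    rw [hq, Nat.one_le_div_iff h3]; omega
  have hqM : M ≤ 3 ^ m * q := by
    have := Nat.lt_div_mul_add (a := M + 3 ^ m - 1) h3
    rw [← hq, mul_comm q (3 ^ m)] at this
    omega
  have hqlt : 3 ^ m * (q - 1) < M := by
    have h1 : q * 3 ^ m ≤ M + 3 ^ m - 1 := Nat.div_mul_le_self _ _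
    have h2 : 3 ^ m * (q - 1) = q * 3 ^ m - 3 ^ m := by
      rw [Nat.mul_sub, mul_comm, mul_one]
    rw [h2]; omega
  -- cells
  let cell : (Fin m → ℤ) → (I → ℤ) := fun x i => (x i) / (q : ℤ)
  have hmaps : ∀ x ∈ (box m N).filter (fun x => toQ x ∈ V),
      cell x ∈ Fintype.piFinset (fun _ : I => Finset.Icc (-(N : ℤ) / q) ((N : ℤ) / q)) := by
    intro x hx
    rw [Finset.mem_filter, mem_box] at hx
    rw [Fintype.mem_piFinset]
    intro i
    rw [Finset.mem_Icc]
    have h := abs_le.mp (hx.1 i)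
    have hq0 : (0 : ℤ) < q := by exact_mod_cast hq1
    exact ⟨Int.ediv_le_ediv hq0 h.1, Int.ediv_le_ediv hq0 h.2⟩
  have hinj : Set.InjOn cell ((box m N).filter (fun x => toQ x ∈ V) : Finset (Fin m → ℤ)) := by
    intro x hx y hy hxy
    rw [Finset.mem_coe, Finset.mem_filter] at hx hy
    by_contra hne
    have hsub : x - y ≠ 0 := sub_ne_zero.mpr hne
    have hV : toQ (x - y) ∈ V := by rw [toQ_sub]; exact V.sub_mem hx.2 hy.2
    obtain ⟨j, hj⟩ := hmin (x - y) hV hsub
    have hq0 : (0 : ℤ) < q := by exact_mod_cast hq1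
    have hclose : ∀ i ∈ I, |(toQ (x - y)) i| ≤ ((q - 1 : ℕ) : ℚ) := by
      intro i hi
      have h1 : x i / (q : ℤ) = y i / (q : ℤ) := congrFun hxy ⟨i, hi⟩
      have h2 := Int.emod_add_mul_ediv (x i) q
      have h3 := Int.emod_add_mul_ediv (y i) q
      have h4 := Int.emod_nonneg (x i) (ne_of_gt hq0)
      have h5 := Int.emod_nonneg (y i) (ne_of_gt hq0)
      have h6 := Int.emod_lt_of_pos (x i) hq0
      have h7 := Int.emod_lt_of_pos (y i) hq0
      rw [h1] at h2
      have h8 : |x i - y i| ≤ (q : ℤ) - 1 := by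
        rw [abs_le]; constructor <;> linarith
      have h9 : ((q - 1 : ℕ) : ℤ) = (q : ℤ) - 1 := by
        rw [Nat.cast_sub hq1]; simp
      have h10 : |x i - y i| ≤ ((q - 1 : ℕ) : ℤ) := by rw [h9]; exact h8
      have h11 : ((|x i - y i| : ℤ) : ℚ) ≤ (((q - 1 : ℕ) : ℤ) : ℚ) := by exact_mod_cast h10
      simpa [toQ] using h11
    have h12 := hP _ hV ((q - 1 : ℕ) : ℚ) (by positivity) hclose j
    have h13 : ((3 ^ m * (q - 1) : ℕ) : ℚ) < (M : ℚ) := by exact_mod_cast hqlt
    have h14 : (M : ℚ) ≤ |(toQ (x - y)) j| := by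
      have : ((M : ℤ) : ℚ) ≤ ((|(x - y) j| : ℤ) : ℚ) := by exact_mod_cast hj
      simpa [toQ] using this
    push_cast at h13
    linarith
  have hcard := Finset.card_le_card_of_injOn cell hmaps hinj
  rw [Fintype.card_piFinset] at hcard
  simp only [Finset.prod_const, Finset.card_univ, Fintype.card_coe, Int.card_Icc] at hcard
  have hM0 : (0 : ℝ) < M := by exact_mod_cast hM
  have hNM : (1 : ℝ) ≤ (N : ℝ) / M := by
    rw [le_div_iff₀ hM0, one_mul]; exact_mod_cast hMN
  have hq0 : (0 : ℤ) < q := by exact_mod_cast hq1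
  have hq0r : (0 : ℝ) < q := by exact_mod_cast hq1
  have hbound : ((((N : ℤ) / q + 1 - -(N : ℤ) / q).toNat : ℕ) : ℝ) ≤ 4 * 3 ^ m * (N / M) := by
    have h1 : (0 : ℤ) ≤ (N : ℤ) / q + 1 - -(N : ℤ) / q := by
      have : -(N : ℤ) / q ≤ (N : ℤ) / q := Int.ediv_le_ediv hq0 (by omega)
      omega
    have h2 : ((((N : ℤ) / q + 1 - -(N : ℤ) / q).toNat : ℕ) : ℤ) = (N : ℤ) / q + 1 - -(N : ℤ) / q :=
      Int.toNat_of_nonneg h1
    have h3a : ((((N : ℤ) / q + 1 - -(N : ℤ) / q).toNat : ℕ) : ℝ)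
        = (((N : ℤ) / q + 1 - -(N : ℤ) / q : ℤ) : ℝ) := by
      exact_mod_cast h2
    rw [h3a]
    push_cast
    have h4 : (((N : ℤ) / q : ℤ) : ℝ) ≤ (N : ℝ) / q := by
      rw [le_div_iff₀ hq0r]
      have := Int.ediv_mul_le (N : ℤ) (ne_of_gt hq0)
      exact_mod_cast this
    have h5 : -(N : ℝ) / q - 1 ≤ ((-(N : ℤ) / q : ℤ) : ℝ) := by
      have := Int.lt_ediv_add_one_mul_self (-(N : ℤ)) hq0
      have h6 : (-(N : ℝ)) < (((-(N : ℤ) / q : ℤ) : ℝ) + 1) * q := by exact_mod_cast this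
      have h7 : -(N : ℝ) / q < ((-(N : ℤ) / q : ℤ) : ℝ) + 1 := by
        rw [div_lt_iff₀ hq0r]; exact h6
      linarith
    have h8 : (N : ℝ) / q ≤ 3 ^ m * (N / M) := by
      rw [div_le_iff₀ hq0r]
      have h9 : (M : ℝ) ≤ 3 ^ m * q := by exact_mod_cast hqM
      have h10 : 3 ^ m * ((N : ℝ) / M) * q = (N : ℝ) * ((3 ^ m * q) / M) := by field_simp
      rw [h10]
      have h11 : (1 : ℝ) ≤ (3 ^ m * q) / M := by rw [le_div_iff₀ hM0]; linarith
      nlinarith [(Nat.cast_nonneg N : (0 : ℝ) ≤ N)]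
    have h12 : (1 : ℝ) ≤ 3 ^ m := one_le_pow₀ (by norm_num)
    have h13 : (1 : ℝ) ≤ 3 ^ m * ((N : ℝ) / M) := by nlinarith
    have h14 : -(N : ℝ) / q = -((N : ℝ) / q) := by ring
    linarith
  have hb1 : (1 : ℝ) ≤ 4 * 3 ^ m * (N / M) := by
    have h12 : (1 : ℝ) ≤ 3 ^ m := one_le_pow₀ (by norm_num)
    nlinarith
  calc (((box m N).filter (fun x => toQ x ∈ V)).card : ℝ)
      ≤ (((((N : ℤ) / q + 1 - -(N : ℤ) / q).toNat) ^ I.card : ℕ) : ℝ) := by exact_mod_cast hcard
    _ = ((((N : ℤ) / q + 1 - -(N : ℤ) / q).toNat : ℕ) : ℝ) ^ I.card := by push_cast; rfl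
    _ ≤ (4 * 3 ^ m * (N / M)) ^ I.card := by
        apply pow_le_pow_left₀ (Nat.cast_nonneg _) hbound
    _ ≤ (4 * 3 ^ m * (N / M)) ^ (Module.finrank ℚ V) := pow_le_pow_right₀ hb1 hI

end Pool.Agent.Few65
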